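import Pool.Agent.N290.RJ.Stm

/-!
# Project RJ, part C1: the one-variable lemma (helper353, after `Pool.Agent.N878.RI.C1` by helper878)
-/

set_option autoImplicit false

open Complex MeasureTheory Set Filter Topology
open scoped ENNReal Real

namespace Pool.Agent.N353.RJ

open Pool.Agent.N290.RJ (db1)

noncomputable section

/-- the point with polar coordinates `s`, `t` -/
def pt (s t : ℝ) : ℂ := (s : ℂ) * exp (t * I)

lemma norm_pt (s t : ℝ) : ‖pt s t‖ = |s| := by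
  rw [pt, norm_mul, norm_exp_ofReal_mul_I, mul_one, norm_real, Real.norm_eq_abs]

lemma pt_mem {s t ρ : ℝ} (h0 : 0 ≤ s) (h : s < ρ) : pt s t ∈ Metric.ball (0 : ℂ) ρ := by
  rw [mem_ball_zero_iff, norm_pt, abs_of_nonneg h0]; exact h

lemma symm_eq (p : ℝ × ℝ) : Complex.polarCoord.symm p = pt p.1 p.2 := by
  rw [Complex.polarCoord_symm_apply, pt, exp_mul_I, ofReal_cos, ofReal_sin]

lemma pt_cont : Continuous (fun p : ℝ × ℝ => pt p.1 p.2) := by
  unfold pt; fun_prop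

lemma mem_ball_iff {p : ℝ × ℝ} {ρ : ℝ} (hp : p ∈ (Ioi (0 : ℝ) ×ˢ Ioo (-π) π)) :
    pt p.1 p.2 ∈ Metric.ball (0 : ℂ) ρ ↔ p.1 < ρ := by
  rw [mem_ball_zero_iff, norm_pt, abs_of_pos hp.1]

lemma sets_eq (ρ : ℝ) : (Ioi (0 : ℝ) ×ˢ Ioo (-π) π) ∩ {p : ℝ × ℝ | p.1 < ρ} =
    Ioo 0 ρ ×ˢ Ioo (-π) π := by
  ext ⟨a, b⟩
  simp only [mem_inter_iff, mem_prod, mem_Ioi, mem_Ioo, mem_ofPred_eq]
  tauto

lemma polar_lint {H : ℂ → ℝ≥0∞} (hH : Measurable H) (ρ : ℝ) :
    ∫⁻ τ in Metric.ball (0 : ℂ) ρ, H τ =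
      ∫⁻ r in Ioo 0 ρ, ∫⁻ t in Ioo (-π) π, ENNReal.ofReal r * H (pt r t) := by
  rw [← lintegral_indicator Metric.isOpen_ball.measurableSet,
    ← Complex.lintegral_comp_polarCoord_symm]
  have hT : polarCoord.target = (Ioi (0 : ℝ) ×ˢ Ioo (-π) π) := rfl
  rw [hT]
  have hm : MeasurableSet (Ioi (0 : ℝ) ×ˢ Ioo (-π) π) := measurableSet_Ioi.prod measurableSet_Ioo
  have hm2 : MeasurableSet {p : ℝ × ℝ | p.1 < ρ} := measurableSet_lt measurable_fst measurable_const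
  have h1 : ∫⁻ p in (Ioi (0 : ℝ) ×ˢ Ioo (-π) π), ENNReal.ofReal p.1 •
      (Metric.ball (0 : ℂ) ρ).indicator H (Complex.polarCoord.symm p) =
      ∫⁻ p in (Ioi (0 : ℝ) ×ˢ Ioo (-π) π), {p : ℝ × ℝ | p.1 < ρ}.indicator
        (fun p => ENNReal.ofReal p.1 * H (pt p.1 p.2)) p := by
    refine setLIntegral_congr_fun hm fun p hp => ?_
    show _ = _
    rw [symm_eq]
    by_cases h : p.1 < ρ
    · rw [indicator_of_mem ((mem_ball_iff hp).2 h), indicator_of_mem (show p ∈ {p : ℝ × ℝ | p.1 < ρ} from h),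
        smul_eq_mul]
    · rw [indicator_of_notMem (fun h' => h ((mem_ball_iff hp).1 h')),
        indicator_of_notMem (show p ∉ {p : ℝ × ℝ | p.1 < ρ} from h), smul_zero]
  rw [h1, lintegral_indicator hm2, Measure.restrict_restrict hm2, inter_comm, sets_eq,
    Measure.volume_eq_prod, ← Measure.prod_restrict]
  rw [lintegral_prod]
  apply Measurable.aemeasurable
  exact (ENNReal.measurable_ofReal.comp measurable_fst).mul (hH.comp pt_cont.measurable)

lemma polar_int {F : ℂ → ℂ} {ρ M : ℝ} (hρ : 0 < ρ) (hF : ContinuousOn F (Metric.ball (0 : ℂ) ρ))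
    (hM : ∀ τ ∈ Metric.ball (0 : ℂ) ρ, ‖F τ‖ ≤ M) :
    ∫ τ in Metric.ball (0 : ℂ) ρ, F τ =
      ∫ r in Ioo 0 ρ, ∫ t in Ioo (-π) π, (r : ℂ) * F (pt r t) := by
  rw [← integral_indicator Metric.isOpen_ball.measurableSet,
    ← Complex.integral_comp_polarCoord_symm]
  have hT : polarCoord.target = (Ioi (0 : ℝ) ×ˢ Ioo (-π) π) := rfl
  rw [hT]
  have hm : MeasurableSet (Ioi (0 : ℝ) ×ˢ Ioo (-π) π) := measurableSet_Ioi.prod measurableSet_Ioo
  have hm2 : MeasurableSet {p : ℝ × ℝ | p.1 < ρ} := measurableSet_lt measurable_fst measurable_const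
  have h1 : ∫ p in (Ioi (0 : ℝ) ×ˢ Ioo (-π) π), p.1 •
      (Metric.ball (0 : ℂ) ρ).indicator F (Complex.polarCoord.symm p) =
      ∫ p in (Ioi (0 : ℝ) ×ˢ Ioo (-π) π), {p : ℝ × ℝ | p.1 < ρ}.indicator
        (fun p => (p.1 : ℂ) * F (pt p.1 p.2)) p := by
    refine setIntegral_congr_fun hm fun p hp => ?_
    show _ = _
    rw [symm_eq]
    by_cases h : p.1 < ρ
    · rw [indicator_of_mem ((mem_ball_iff hp).2 h), indicator_of_mem (show p ∈ {p : ℝ × ℝ | p.1 < ρ} from h),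
        real_smul]
    · rw [indicator_of_notMem (fun h' => h ((mem_ball_iff hp).1 h')),
        indicator_of_notMem (show p ∉ {p : ℝ × ℝ | p.1 < ρ} from h), smul_zero]
  rw [h1, integral_indicator hm2, Measure.restrict_restrict hm2, inter_comm, sets_eq,
    Measure.volume_eq_prod, setIntegral_prod]
  have hm3 : MeasurableSet (Ioo 0 ρ ×ˢ Ioo (-π) π) := measurableSet_Ioo.prod measurableSet_Ioo
  have hfin : (volume : Measure (ℝ × ℝ)) (Ioo 0 ρ ×ˢ Ioo (-π) π) < ⊤ := by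
    rw [Measure.volume_eq_prod, Measure.prod_prod, Real.volume_Ioo, Real.volume_Ioo]
    exact ENNReal.mul_lt_top ENNReal.ofReal_lt_top ENNReal.ofReal_lt_top
  rw [← Measure.volume_eq_prod]
  have : IsFiniteMeasure ((volume : Measure (ℝ × ℝ)).restrict (Ioo 0 ρ ×ˢ Ioo (-π) π)) :=
    ⟨by rw [Measure.restrict_apply_univ]; exact hfin⟩
  refine Integrable.of_bound ?_ (ρ * M) ?_
  · apply ContinuousOn.aestronglyMeasurable _ hm3
    apply ContinuousOn.mul
    · exact (continuous_ofReal.comp continuous_fst).continuousOn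
    · exact hF.comp pt_cont.continuousOn fun p hp => pt_mem hp.1.1.le hp.1.2
  · refine (ae_restrict_iff' hm3).2 (Eventually.of_forall fun p hp => ?_)
    rw [norm_mul, norm_real, Real.norm_eq_abs, abs_of_pos hp.1.1]
    exact mul_le_mul hp.1.2.le (hM _ (pt_mem hp.1.1.le hp.1.2)) (norm_nonneg _) hρ.le

lemma lin (L : ℂ →L[ℝ] ℂ) (t : ℝ) :
    L (exp (t * I)) = 2 * ((L 1 + I * L I) / 2) * exp (-(t * I)) - I * L (I * exp (t * I)) := by
  have h : ∀ w : ℂ, L w = (w.re : ℂ) * L 1 + (w.im : ℂ) * L I := by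
    intro w
    have h1 : w = w.re • (1 : ℂ) + w.im • I := by
      apply Complex.ext <;> simp
    conv_lhs => rw [h1]
    rw [map_add, map_smul, map_smul, real_smul, real_smul]
  rw [h (exp (t * I)), h (I * exp (t * I))]
  have e1 : (exp (t * I)).re = Real.cos t := exp_ofReal_mul_I_re t
  have e2 : (exp (t * I)).im = Real.sin t := exp_ofReal_mul_I_im t
  have e3 : (I * exp (t * I)).re = -Real.sin t := by simp [e1, e2]
  have e4 : (I * exp (t * I)).im = Real.cos t := by simp [e1, e2]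
  have e5 : exp (-(t * I)) = (Real.cos t : ℂ) - Real.sin t * I := by
    rw [← neg_mul, exp_mul_I, cos_neg, sin_neg, ofReal_cos, ofReal_sin]; ring
  rw [e1, e2, e3, e4, e5]
  push_cast
  ring_nf
  rw [I_sq]
  ring

section main

variable {Γ : ℂ → ℂ} {ρ : ℝ}

lemma hasF (hΓ : ContDiffOn ℝ 1 Γ (Metric.ball 0 ρ)) {z : ℂ} (hz : z ∈ Metric.ball (0 : ℂ) ρ) :
    HasFDerivAt Γ (fderiv ℝ Γ z) z :=
  ((hΓ.contDiffAt (Metric.isOpen_ball.mem_nhds hz)).differentiableAt one_ne_zero).hasFDerivAt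

lemma contF (hΓ : ContDiffOn ℝ 1 Γ (Metric.ball 0 ρ)) :
    ContinuousOn (fderiv ℝ Γ) (Metric.ball 0 ρ) :=
  hΓ.continuousOn_fderiv_of_isOpen Metric.isOpen_ball le_rfl

lemma radial (hΓ : ContDiffOn ℝ 1 Γ (Metric.ball 0 ρ)) {r : ℝ} (h0 : 0 ≤ r) (hr : r < ρ) (t : ℝ) :
    ∫ s in (0 : ℝ)..r, fderiv ℝ Γ (pt s t) (exp (t * I)) = Γ (pt r t) - Γ 0 := by
  have h1 : ∀ s ∈ uIcc 0 r, pt s t ∈ Metric.ball (0 : ℂ) ρ := by
    intro s hs
    rw [uIcc_of_le h0] at hs
    exact pt_mem hs.1 (hs.2.trans_lt hr)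
  have h2 : ∀ s ∈ uIcc 0 r, HasDerivAt (fun s : ℝ => Γ (pt s t))
      (fderiv ℝ Γ (pt s t) (exp (t * I))) s := by
    intro s hs
    have h3 : HasDerivAt (fun s : ℝ => pt s t) (exp (t * I)) s := by
      have h4 : HasDerivAt (fun s : ℝ => (s : ℂ) * exp (t * I)) (1 * exp (t * I)) s :=
        (Complex.ofRealCLM.hasDerivAt (x := s)).mul_const _
      rw [one_mul] at h4
      exact h4
    exact (hasF hΓ (h1 s hs)).comp_hasDerivAt s h3
  rw [intervalIntegral.integral_eq_sub_of_hasDerivAt h2]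
  · simp [pt]
  · apply ContinuousOn.intervalIntegrable
    apply ContinuousOn.clm_apply
    · refine (contF hΓ).comp ?_ h1
      unfold pt
      fun_prop
    · exact continuousOn_const

lemma angular (hΓ : ContDiffOn ℝ 1 Γ (Metric.ball 0 ρ)) {s : ℝ} (h0 : 0 < s) (hs : s < ρ) :
    ∫ t in -π..π, fderiv ℝ Γ (pt s t) (I * exp (t * I)) = 0 := by
  have h1 : ∀ t : ℝ, pt s t ∈ Metric.ball (0 : ℂ) ρ := fun t => pt_mem h0.le hs
  have h2 : ∀ t ∈ uIcc (-π) π, HasDerivAt (fun t : ℝ => Γ (pt s t))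
      (s * fderiv ℝ Γ (pt s t) (I * exp (t * I))) t := by
    intro t _
    have h3 : HasDerivAt (fun t : ℝ => pt s t) (s • (I * exp (t * I))) t := by
      have h4 : HasDerivAt (fun t : ℝ => exp ((t : ℂ) * I)) (exp (t * I) * (1 * I)) t :=
        ((Complex.ofRealCLM.hasDerivAt (x := t)).mul_const I).cexp
      have h5 := h4.const_mul (s : ℂ)
      have e : (s : ℂ) * (exp (t * I) * (1 * I)) = s • (I * exp (t * I)) := by
        rw [real_smul]; ring
      rw [e] at h5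
      exact h5
    have h6 := (hasF hΓ (h1 t)).comp_hasDerivAt t h3
    rw [map_smul, real_smul] at h6
    exact h6
  have h7 : ∫ t in -π..π, (s : ℂ) * fderiv ℝ Γ (pt s t) (I * exp (t * I)) = 0 := by
    rw [intervalIntegral.integral_eq_sub_of_hasDerivAt h2]
    · have : pt s π = pt s (-π) := by
        unfold pt
        rw [ofReal_neg, neg_mul, exp_neg, exp_pi_mul_I]
        norm_num
      rw [this, sub_self]
    · apply ContinuousOn.intervalIntegrable
      apply ContinuousOn.mul continuousOn_const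
      apply ContinuousOn.clm_apply
      · refine (contF hΓ).comp ?_ fun t _ => h1 t
        unfold pt
        fun_prop
      · fun_prop
  rw [intervalIntegral.integral_const_mul] at h7
  rcases mul_eq_zero.1 h7 with h8 | h8
  · exact absurd (ofReal_eq_zero.1 h8) h0.ne'
  · exact h8

/-- the angular mean of the radial derivative -/
lemma mean (hΓ : ContDiffOn ℝ 1 Γ (Metric.ball 0 ρ)) {s : ℝ} (h0 : 0 < s) (hs : s < ρ) :
    ∫ t in -π..π, fderiv ℝ Γ (pt s t) (exp (t * I)) =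
      ∫ t in -π..π, 2 * db1 Γ (pt s t) * exp (-(t * I)) := by
  have h1 : ∀ t : ℝ, pt s t ∈ Metric.ball (0 : ℂ) ρ := fun t => pt_mem h0.le hs
  have hc : ContinuousOn (fun t => fderiv ℝ Γ (pt s t)) (uIcc (-π) π) := by
    refine (contF hΓ).comp ?_ fun t _ => h1 t
    unfold pt
    fun_prop
  have e : ∀ t : ℝ, fderiv ℝ Γ (pt s t) (exp (t * I)) = 2 * db1 Γ (pt s t) * exp (-(t * I)) -
      I * fderiv ℝ Γ (pt s t) (I * exp (t * I)) := fun t => lin _ t
  simp only [e]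
  rw [intervalIntegral.integral_sub, intervalIntegral.integral_const_mul, angular hΓ h0 hs, mul_zero,
    sub_zero]
  · apply ContinuousOn.intervalIntegrable
    apply ContinuousOn.mul
    · apply ContinuousOn.mul continuousOn_const
      unfold db1
      apply ContinuousOn.div_const
      exact (hc.clm_apply continuousOn_const).add
        (continuousOn_const.mul (hc.clm_apply continuousOn_const))
    · fun_prop
  · apply ContinuousOn.intervalIntegrable
    apply ContinuousOn.mul continuousOn_const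
    exact hc.clm_apply (by fun_prop)

/-- the integral over the angle -/
def G (Γ : ℂ → ℂ) (s : ℝ) : ℝ≥0∞ := ∫⁻ t in Ioo (-π) π, ‖db1 Γ (pt s t)‖ₑ

lemma db1_meas (Γ : ℂ → ℂ) : Measurable (db1 Γ) := by
  unfold db1
  exact (((measurable_fderiv_apply_const ℝ Γ 1).add
    ((measurable_fderiv_apply_const ℝ Γ I).const_mul I)).div_const 2)

lemma G_meas (Γ : ℂ → ℂ) : Measurable (G Γ) := by
  unfold G
  have h : Measurable (fun p : ℝ × ℝ => ‖db1 Γ (pt p.1 p.2)‖ₑ) :=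
    ((db1_meas Γ).comp pt_cont.measurable).enorm
  exact h.lintegral_prod_right' (ν := volume.restrict (Ioo (-π) π))

lemma mean_le (hΓ : ContDiffOn ℝ 1 Γ (Metric.ball 0 ρ)) {s : ℝ} (h0 : 0 < s) (hs : s < ρ) :
    ‖∫ t in -π..π, fderiv ℝ Γ (pt s t) (exp (t * I))‖ₑ ≤ 2 * G Γ s := by
  have hπ : -π ≤ π := by linarith [Real.pi_pos]
  rw [mean hΓ h0 hs, intervalIntegral.integral_of_le hπ, integral_Ioc_eq_integral_Ioo]
  refine (enorm_integral_le_lintegral_enorm _).trans ?_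
  unfold G
  rw [← lintegral_const_mul' _ _ (by norm_num)]
  refine lintegral_mono fun t => ?_
  rw [enorm_mul, enorm_mul]
  have e1 : ‖exp (-((t : ℂ) * I))‖ₑ = 1 := by
    rw [← neg_mul, ← ofReal_neg, ← ofReal_norm, norm_exp_ofReal_mul_I, ENNReal.ofReal_one]
  have e2 : ‖(2 : ℂ)‖ₑ = 2 := by
    rw [← ofReal_norm, Complex.norm_ofNat]
    norm_num
  rw [e1, e2, mul_one]

/-- the integral of `Γ - Γ 0` over a circle -/
lemma circle_le (hΓ : ContDiffOn ℝ 1 Γ (Metric.ball 0 ρ)) {r : ℝ} (h0 : 0 < r) (hr : r < ρ) :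
    ‖∫ t in Ioo (-π) π, (Γ (pt r t) - Γ 0)‖ₑ ≤ ∫⁻ s in Ioo 0 r, 2 * G Γ s := by
  have hπ : -π ≤ π := by linarith [Real.pi_pos]
  have e1 : ∫ t in Ioo (-π) π, (Γ (pt r t) - Γ 0) =
      ∫ s in (0 : ℝ)..r, ∫ t in -π..π, fderiv ℝ Γ (pt s t) (exp (t * I)) := by
    rw [intervalIntegral_intervalIntegral_swap, intervalIntegral.integral_of_le hπ,
      integral_Ioc_eq_integral_Ioo]
    · refine setIntegral_congr_fun measurableSet_Ioo fun t _ => ?_
      exact (radial hΓ h0.le hr t).symm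
    · have hK : IsCompact (Icc 0 r ×ˢ Icc (-π) π) := isCompact_Icc.prod isCompact_Icc
      have hc : ContinuousOn (Function.uncurry fun s t : ℝ => fderiv ℝ Γ (pt s t) (exp (t * I)))
          (Icc 0 r ×ˢ Icc (-π) π) := by
        unfold Function.uncurry
        apply ContinuousOn.clm_apply
        · exact (contF hΓ).comp pt_cont.continuousOn fun p hp => pt_mem hp.1.1 (hp.1.2.trans_lt hr)
        · fun_prop
      refine (hc.integrableOn_compact hK).mono_set ?_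
      rw [uIoc_of_le h0.le, uIoc_of_le hπ]
      exact prod_mono Ioc_subset_Icc_self Ioc_subset_Icc_self
  rw [e1, intervalIntegral.integral_of_le h0.le, integral_Ioc_eq_integral_Ioo]
  refine (enorm_integral_le_lintegral_enorm _).trans ?_
  refine setLIntegral_mono ((G_meas Γ).const_mul 2) fun s hs => ?_
  exact mean_le hΓ hs.1 (hs.2.trans hr)

/-- the integrand on the triangle -/
def Kf (m : ℕ) (g : ℝ → ℝ≥0∞) (ρ : ℝ) (p : ℝ × ℝ) : ℝ≥0∞ :=
  {p : ℝ × ℝ | 0 < p.2 ∧ p.2 < p.1 ∧ p.1 < ρ}.indicator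
    (fun p => ENNReal.ofReal (p.1 ^ m) * g p.2) p

lemma Kf_pos {m : ℕ} {g : ℝ → ℝ≥0∞} {ρ r s : ℝ} (h : 0 < s ∧ s < r ∧ r < ρ) :
    Kf m g ρ (r, s) = ENNReal.ofReal (r ^ m) * g s :=
  indicator_of_mem (s := {p : ℝ × ℝ | 0 < p.2 ∧ p.2 < p.1 ∧ p.1 < ρ}) (a := (r, s)) h _

lemma Kf_neg {m : ℕ} {g : ℝ → ℝ≥0∞} {ρ r s : ℝ} (h : ¬ (0 < s ∧ s < r ∧ r < ρ)) :
    Kf m g ρ (r, s) = 0 :=
  indicator_of_notMem (s := {p : ℝ × ℝ | 0 < p.2 ∧ p.2 < p.1 ∧ p.1 < ρ}) (a := (r, s)) h _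

lemma Kf_meas (m : ℕ) {g : ℝ → ℝ≥0∞} (hg : Measurable g) (ρ : ℝ) : Measurable (Kf m g ρ) := by
  have hS : MeasurableSet {p : ℝ × ℝ | 0 < p.2 ∧ p.2 < p.1 ∧ p.1 < ρ} :=
    (measurableSet_lt measurable_const measurable_snd).inter
      ((measurableSet_lt measurable_snd measurable_fst).inter
        (measurableSet_lt measurable_fst measurable_const))
  refine Measurable.indicator ?_ hS
  exact (ENNReal.measurable_ofReal.comp (measurable_fst.pow_const m)).mul (hg.comp measurable_snd)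

/-- Tonelli on a triangle -/
lemma triangle (m : ℕ) {g : ℝ → ℝ≥0∞} (hg : Measurable g) (ρ : ℝ) :
    ∫⁻ r in Ioo 0 ρ, ENNReal.ofReal (r ^ m) * ∫⁻ s in Ioo 0 r, g s =
      ∫⁻ s in Ioo 0 ρ, g s * ∫⁻ r in Ioo s ρ, ENNReal.ofReal (r ^ m) := by
  have h1 : ∫⁻ r in Ioo 0 ρ, ENNReal.ofReal (r ^ m) * ∫⁻ s in Ioo 0 r, g s =
      ∫⁻ r, ∫⁻ s, Kf m g ρ (r, s) := by
    rw [← lintegral_indicator measurableSet_Ioo]
    refine lintegral_congr fun r => ?_
    by_cases hr : r ∈ Ioo 0 ρ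
    · rw [indicator_of_mem hr, ← lintegral_const_mul _ hg, ← lintegral_indicator measurableSet_Ioo]
      refine lintegral_congr fun s => ?_
      by_cases hs : s ∈ Ioo 0 r
      · rw [indicator_of_mem hs, Kf_pos ⟨hs.1, hs.2, hr.2⟩]
      · rw [indicator_of_notMem hs, Kf_neg fun h => hs ⟨h.1, h.2.1⟩]
    · rw [indicator_of_notMem hr]
      have : ∀ s, Kf m g ρ (r, s) = 0 := fun s => Kf_neg fun h => hr ⟨h.1.trans h.2.1, h.2.2⟩
      simp only [this, lintegral_zero]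
  have h2 : ∫⁻ s in Ioo 0 ρ, g s * ∫⁻ r in Ioo s ρ, ENNReal.ofReal (r ^ m) =
      ∫⁻ s, ∫⁻ r, Kf m g ρ (r, s) := by
    rw [← lintegral_indicator measurableSet_Ioo]
    refine lintegral_congr fun s => ?_
    by_cases hs : s ∈ Ioo 0 ρ
    · rw [indicator_of_mem hs, ← lintegral_const_mul _ (by fun_prop),
        ← lintegral_indicator measurableSet_Ioo]
      refine lintegral_congr fun r => ?_
      by_cases hr : r ∈ Ioo s ρ
      · rw [indicator_of_mem hr, mul_comm, Kf_pos ⟨hs.1, hr.1, hr.2⟩]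
      · rw [indicator_of_notMem hr, Kf_neg fun h => hr ⟨h.2.1, h.2.2⟩]
    · rw [indicator_of_notMem hs]
      have : ∀ r, Kf m g ρ (r, s) = 0 := fun r => Kf_neg fun h => hs ⟨h.1, h.2.1.trans h.2.2⟩
      simp only [this, lintegral_zero]
  rw [h1, h2]
  exact lintegral_lintegral_swap (f := fun r s => Kf m g ρ (r, s)) (Kf_meas m hg ρ).aemeasurable

lemma powInt (m : ℕ) {s ρ : ℝ} (h : 0 < s) (hs : s < ρ) :
    ∫⁻ r in Ioo s ρ, ENNReal.ofReal (r ^ m) =
      ENNReal.ofReal ((ρ ^ (m + 1) - s ^ (m + 1)) / ((m : ℝ) + 1)) := by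
  rw [← ofReal_integral_eq_lintegral_ofReal, ← integral_Ioc_eq_integral_Ioo,
    ← intervalIntegral.integral_of_le hs.le, integral_pow]
  · exact ((continuous_pow m).continuousOn.integrableOn_Icc (a := s) (b := ρ)).mono_set
      Ioo_subset_Icc_self
  · refine (ae_restrict_iff' measurableSet_Ioo).2 (Eventually.of_forall fun r hr => ?_)
    have : 0 < r := h.trans hr.1
    show 0 ≤ r ^ m
    positivity

lemma pow_diff (d : ℕ) {x y : ℝ} (hy : 0 ≤ y) (hyx : y ≤ x) :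
    x ^ (d + 1) - y ^ (d + 1) ≤ ((d : ℝ) + 1) * x ^ d * (x - y) := by
  have hx : 0 ≤ x := hy.trans hyx
  induction d with
  | zero => simp
  | succ d ih =>
    have e : x ^ (d + 1 + 1) - y ^ (d + 1 + 1) = x * (x ^ (d + 1) - y ^ (d + 1)) +
        y ^ (d + 1) * (x - y) := by ring
    have h1 : y ^ (d + 1) ≤ x ^ (d + 1) := pow_le_pow_left₀ hy hyx _
    have h2 : 0 ≤ x - y := sub_nonneg.2 hyx
    have h3 := mul_le_mul_of_nonneg_left ih hx
    have h4 := mul_le_mul_of_nonneg_right h1 h2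
    rw [e]
    push_cast
    calc x * (x ^ (d + 1) - y ^ (d + 1)) + y ^ (d + 1) * (x - y)
        ≤ x * (((d : ℝ) + 1) * x ^ d * (x - y)) + x ^ (d + 1) * (x - y) := by linarith
      _ = _ := by ring

end main

theorem C1 (d : ℕ) : Pool.Agent.N290.RJ.C1 d := by
  intro Γ ρ M hρ hΓ hM
  have h00 : (0 : ℂ) ∈ Metric.ball (0 : ℂ) ρ := Metric.mem_ball_self hρ
  have hM0 : 0 ≤ M := (norm_nonneg _).trans (hM 0 h00)
  rw [polar_int (M := ρ ^ (2 * d) * (M + M)) hρ, ofReal_norm]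
  rotate_left
  · apply ContinuousOn.mul
    · fun_prop
    · exact hΓ.continuousOn.sub continuousOn_const
  · intro τ hτ
    have hτ' := mem_ball_zero_iff.1 hτ
    rw [norm_mul, norm_real, Real.norm_eq_abs, abs_of_nonneg (pow_nonneg (norm_nonneg _) _)]
    refine mul_le_mul ?_ ((norm_sub_le _ _).trans (add_le_add (hM τ hτ) (hM 0 h00)))
      (norm_nonneg _) (pow_nonneg hρ.le _)
    exact pow_le_pow_left₀ (norm_nonneg _) hτ'.le (2 * d)
  refine (enorm_integral_le_lintegral_enorm _).trans ?_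
  have hR : ∫⁻ τ in Metric.ball (0 : ℂ) ρ,
      ENNReal.ofReal (‖db1 Γ τ‖ * (ρ ^ (2 * d) * (ρ ^ 2 - ‖τ‖ ^ 2) / ‖τ‖)) =
      ∫⁻ s in Ioo 0 ρ, ENNReal.ofReal (ρ ^ (2 * d) * (ρ ^ 2 - s ^ 2)) * G Γ s := by
    rw [polar_lint]
    · refine setLIntegral_congr_fun measurableSet_Ioo fun s hs => ?_
      have hs0 : 0 < s := hs.1
      have hs1 : s < ρ := hs.2
      have hnn : 0 ≤ ρ ^ (2 * d) * (ρ ^ 2 - s ^ 2) := by
        have : s ^ 2 ≤ ρ ^ 2 := pow_le_pow_left₀ hs0.le hs1.le 2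
        have := pow_nonneg hρ.le (2 * d)
        apply mul_nonneg this; linarith
      show _ = _
      unfold G
      rw [← lintegral_const_mul' _ _ ENNReal.ofReal_ne_top]
      refine lintegral_congr fun t => ?_
      rw [norm_pt, abs_of_pos hs0, ← ENNReal.ofReal_mul hs0.le, ← ofReal_norm,
        ← ENNReal.ofReal_mul hnn]
      congr 1
      field_simp
    · apply Measurable.ennreal_ofReal
      apply Measurable.mul (db1_meas Γ).norm
      fun_prop
  rw [hR]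
  calc ∫⁻ r in Ioo 0 ρ, ‖∫ t in Ioo (-π) π,
        (r : ℂ) * (((‖pt r t‖ ^ (2 * d) : ℝ) : ℂ) * (Γ (pt r t) - Γ 0))‖ₑ
      ≤ ∫⁻ r in Ioo 0 ρ, ENNReal.ofReal (r ^ (2 * d + 1)) * ∫⁻ s in Ioo 0 r, 2 * G Γ s := by
        refine lintegral_mono_ae ?_
        refine (ae_restrict_iff' measurableSet_Ioo).2 (Eventually.of_forall fun r hr => ?_)
        have e : ∀ t : ℝ, (r : ℂ) * (((‖pt r t‖ ^ (2 * d) : ℝ) : ℂ) * (Γ (pt r t) - Γ 0)) =
            ((r ^ (2 * d + 1) : ℝ) : ℂ) * (Γ (pt r t) - Γ 0) := by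
          intro t
          rw [norm_pt, abs_of_pos hr.1]
          push_cast
          ring
        simp only [e]
        rw [integral_const_mul, enorm_mul]
        have hr3 : 0 ≤ r ^ (2 * d + 1) := by have := hr.1; positivity
        have e3 : ‖((r ^ (2 * d + 1) : ℝ) : ℂ)‖ₑ = ENNReal.ofReal (r ^ (2 * d + 1)) := by
          rw [← ofReal_norm, norm_real, Real.norm_eq_abs, abs_of_nonneg hr3]
        rw [e3]
        gcongr
        exact circle_le hΓ hr.1 hr.2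
    _ = ∫⁻ s in Ioo 0 ρ, (2 * G Γ s) * ∫⁻ r in Ioo s ρ, ENNReal.ofReal (r ^ (2 * d + 1)) :=
        triangle (2 * d + 1) ((G_meas Γ).const_mul 2) ρ
    _ ≤ ∫⁻ s in Ioo 0 ρ, ENNReal.ofReal (ρ ^ (2 * d) * (ρ ^ 2 - s ^ 2)) * G Γ s := by
        refine lintegral_mono_ae ?_
        refine (ae_restrict_iff' measurableSet_Ioo).2 (Eventually.of_forall fun s hs => ?_)
        rw [powInt (2 * d + 1) hs.1 hs.2, mul_assoc, mul_comm (G Γ s), ← mul_assoc]
        gcongr
        rw [show (2 : ℝ≥0∞) = ENNReal.ofReal 2 by norm_num, ← ENNReal.ofReal_mul (by norm_num)]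
        apply ENNReal.ofReal_le_ofReal
        have h1 : s ^ 2 ≤ ρ ^ 2 := pow_le_pow_left₀ hs.1.le hs.2.le 2
        have h2 := pow_diff d (sq_nonneg s) h1
        have e1 : ρ ^ (2 * d + 1 + 1) = (ρ ^ 2) ^ (d + 1) := by rw [← pow_mul]; ring_nf
        have e2 : s ^ (2 * d + 1 + 1) = (s ^ 2) ^ (d + 1) := by rw [← pow_mul]; ring_nf
        have e3 : ρ ^ (2 * d) = (ρ ^ 2) ^ d := by rw [← pow_mul]
        rw [e1, e2, e3, mul_div_assoc', div_le_iff₀ (by positivity)]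
        push_cast
        linarith

end

end Pool.Agent.N353.RJ
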